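import Pool.Agent.H31.IC2

open Pool.Agent.H31.IC

universe u

theorem Pool.Agent.Results.MP_4caafd_al.Group.result :
    ∀ C ∈ ({T1S, T2S, TzS} : Set Cls.{u}),
      (∀ (X : Type u) [Group X], IdealClosed C X → ProjClosed C X) ∧
      ∀ (X : Type u) [Semigroup X] (c : Con X),
        (∀ b z : c.Quotient, {a | a * b = z}.Finite ∧ {a | b * a = z}.Finite) →
          CClosed C X → CClosed C c.Quotient :=
  fun _ hC => ⟨fun _ _ => grp hC, fun _ _ _ hw =>
    quot hC _ (fun _ _ => rfl) Quotient.mk''_surjective hw⟩
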