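import Pool.Agent.H31.IC

open Pool.Agent.H31.IC

universe u

theorem Pool.Agent.Results.MP_4caafd_al.Main.result :
    ∃ (X : Type u) (_ : Semigroup X), ∀ C : Cls.{u}, Sub TzS C → Sub C T1S →
      IdealClosed C X ∧ ¬ ProjClosed C X :=
  ⟨X, inferInstance, fun _ h h' => ⟨ideal h', notProj h⟩⟩
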